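import Pool.Agent.J6H31.GA.Stm

/-!
# The Tate conjecture for divisors on surfaces with an action of an abelian `p`-group

Let `𝒳` be a smooth projective surface with `H¹ = 0` over the finite field `κ` with `q` elements, `G` a
finite abelian group of automorphisms of `𝒳` over `κ` whose order is a power of a prime `p` which
divides `q - 1`, and `Y = 𝒳 / G`. Let `Z_1, …, Z_r` be smooth geometrically irreducible curves on `Y`
which contain the branch locus, no three of them with a common point, and such that the stabilizers in
`G` are generated by the inertia groups `I_j` of the `Z_j` (for `Y` smooth this is automatic for a branch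
locus with normal crossings). For a character `χ` of `G` let `H²_χ` be the part of
`H² = H²(𝒳̄, ℚ_ℓ)` on which `G` acts by `χ` (`ℓ ≠ char κ`; `ℓ = p` is allowed), let `J(χ)` be the
set of the `j` with `χ` ramified at `Z_j`, and

`m(χ) = μ(Y) - 2 |J(χ)| + ∑_{j ∈ J(χ)} μ_j + ∑_x p(x)`.

Here `μ_j` is the multiplicity of the root `1` of the numerator `P_j` of the zeta function of `Z_j`
modulo `p` (so `μ_j = 0` if and only if the class number `P_j(1)` of `Z_j` is prime to `p`), `x` runs
through the closed points of the intersections `Z_i ∩ Z_j`, `i < j` in `J(χ)`, `p(x)` is the largest power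
of `p` which divides the degree of `x`, and `μ(Y)` is the multiplicity of the pole `1` of the zeta
function of `Y` modulo `p`; for example `μ(ℙ²) = 3`.

Theorem.
(1) The number of the eigenvalues of Frobenius on `H²_χ` of the form `q ζ`, `ζ` a root of unity of
order a power of `p`, is at most `m(χ)`, and at most `m(χ) - 2` if `χ = 1`. If `p = 2`, `χ² = 1` and the
determinant of Frobenius on `H²_χ` is `-q ^ dim`, then the multiplicity of the eigenvalue `q` is even
at most `m(χ) - 1`.

(2) If there are so many independent classes of divisors that (1) allows no further Tate classes, then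
the Tate conjecture for divisors holds for `𝒳` (in the strong form, with the order of the pole of the
zeta function) over `κ`, and if these divisors come from a surface over a finitely generated field `k`
whose reduction at some place is `𝒳`, then it holds for this surface over `k`.

(3) Let `μ(Y) = 3`, for example `Y = ℙ²`. Assume that the class numbers of all `Z_j` are prime to `p`
and that each `Z_i ∩ Z_j` is one closed point of degree prime to `p`. Assume that every character
`χ ≠ 1` is ramified at two or three of the curves, or that `p = 2`, `χ` is ramified at one or four of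
the curves and the determinant of Frobenius on `H²_χ` is `-q ^ dim`. Then the Tate conjecture holds
for `𝒳` over `κ` and for every surface over a finitely generated field with the reduction `𝒳`, and the
Picard number is one.

(4) `μ(𝒳) ≤ ∑_χ m(χ)`. If all `χ ≠ 1` are ramified at two or three curves, then `μ(𝒳) = 3` in (3), so
that (3) can be applied to the coverings of `𝒳`, their coverings, ….

Examples of (3) with `Y = ℙ²` (everything can be of arbitrarily large degree and genus):
* the double planes `y² = F(x₀, x₁, x₂)`, `F` of even degree with a smooth curve `Z : F = 0` of odd class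
  number, if the sign of Frobenius on `H²_χ` is `-1` (which depends only on the discriminant of `F`);
* the surfaces with the function field `κ(ℙ²)(F_1^(a_1/m) F_2^(a_2/m) F_3^(a_3/m); ∑ a_j deg F_j ≡ 0
  modulo m)`, `m = p ^ s`, `G = (ℤ/m)²`, for three curves `F_j = 0` of degrees prime to `p`;
* for `p = 2` the coverings of the plane with `G = (ℤ/2)³` branched along four curves of odd degrees.
For such surfaces of general type the Tate conjecture was known only in special cases.

Proof. The L-function of a character of `p`-power order is congruent to that of the trivial character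
modulo the places above `p`, hence, by the Lefschetz formula for the `F^n ∘ g`, `g ∈ G`, the
characteristic polynomial of Frobenius on `H²_χ` is determined modulo `p` by the zeta function of the
open set where `χ` is unramified; its multiplicity at `1` is `m(χ)`. The part about the sign: an
orthogonal similitude of determinant `-q ^ dim` has the eigenvalue `-q`, which is congruent to `q`
modulo `2`. (The congruence of zeta functions is taken from the starting library, project W528.HS.)
-/

set_option autoImplicit false
set_option linter.unusedVariables false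

namespace Pool.Agent.Results.MP_89bcae_ag.AbelianPGroupActions

open Finset Polynomial Module Pool.Agent.J6H31.GA

/-- Tate classes and actions of abelian `p`-groups. -/
theorem result {p s q r : ℕ} (hp : p.Prime) (hq : q ≡ 1 [MOD p]) {G : Type} [CommGroup G]
    [Fintype G] (hG : ∀ g : G, g ^ p ^ s = 1) {K : Covering G} {E : Type} [Field E] [CharZero E]
    [IsAlgClosed E] [Fintype (G →* E)] (D : Branch K q E r) (H : H2 K q E) :
    -- (1) the number of Tate eigenvalues
    (∀ (χ : G →* E) (b : ℕ), H.tateDim (p ^ b) χ + H.sign p b χ ≤ D.bound p χ) ∧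
    -- (2) enough divisors
    (∀ (b : ℕ) (N : Submodule E H.V), H.tateDim (p ^ b) 1 + D.total H p b
        ≤ finrank E (N ⊓ H.tateSpace (p ^ b) : Submodule E H.V) → H.TateHolds N (p ^ b)) ∧
    -- (3) the main examples
    (D.Good p → ∀ b : ℕ, (∀ χ : G →* E, χ ≠ 1 → (D.ram χ).card = 2 ∨ (D.ram χ).card = 3 ∨
        ((D.ram χ).card = 1 ∨ (D.ram χ).card = 4) ∧ H.sign p b χ = 1) →
      ∀ (N : Submodule E H.V), ∀ v ∈ N, H.IsTateClass v →
        H.TateHolds N (p ^ b) ∧ finrank E (H.tateSpace (p ^ b)) = 1) ∧
    -- (4) the multiplicity for `𝒳`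
    (∀ P : ℤ[X], H.IsRevChar P → (rootMod p P + 2 : ℤ) ≤ ∑ χ : G →* E, D.mult p χ ∧
      (D.Good p → (∀ χ : G →* E, χ ≠ 1 → (D.ram χ).card = 2 ∨ (D.ram χ).card = 3) →
        ∀ v : H.V, H.IsTateClass v → rootMod p P = 1)) := by
  classical
  have h : IsH2 K q H.Φ H.ρ := H.isH2
  have hq0 : (q : E) ≠ 0 := by
    intro h0
    have h1 : q = 0 := by exact_mod_cast h0
    rw [h1] at hq
    have h2 : p ∣ 1 := (Nat.modEq_iff_dvd' (Nat.zero_le 1)).1 hq
    exact hp.one_lt.ne' (Nat.dvd_one.1 h2)
  have hN : ∀ b, 0 < p ^ b := fun b => pow_pos hp.pos b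
  have h1 : ∀ (χ : G →* E) (b : ℕ), (H.tateDim (p ^ b) χ : ℤ) + H.sign p b χ
      ≤ D.bound p χ := fun χ b => by
    have h0 := bound_dim hp hG hq D h H.B H.isForm.nondeg H.isForm.group H.isForm.frob χ b
    unfold Branch.bound H2.tateDim H2.sign
    by_cases hχ : χ = 1
    · rw [if_pos hχ] at h0 ⊢
      linarith
    · rw [if_neg hχ] at h0 ⊢
      linarith
  have htd : ∀ n, finrank E (H.tateSpace n) ≤ ∑ χ : G →* E, H.tateDim n χ := fun n =>
    total_dim (q := q) h.comm n
  have h2 : ∀ (b : ℕ) (N : Submodule E H.V), (H.tateDim (p ^ b) 1 : ℤ) + D.total H p b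
        ≤ (finrank E (N ⊓ H.tateSpace (p ^ b) : Submodule E H.V) : ℤ) →
      H.TateHolds N (p ^ b) := by
    intro b N hN2
    refine tate_of_dim (hN b) hq0 (htd (p ^ b)) ?_
    have h3 : ((∑ χ : G →* E, H.tateDim (p ^ b) χ : ℕ) : ℤ)
        ≤ (finrank E (N ⊓ H.tateSpace (p ^ b) : Submodule E H.V) : ℤ) := by
      refine le_trans ?_ hN2
      push_cast
      rw [← Finset.add_sum_erase univ (fun χ => (H.tateDim (p ^ b) χ : ℤ))
        (mem_univ (1 : G →* E))]
      refine add_le_add le_rfl (Finset.sum_le_sum fun χ hχ => ?_)
      have h4 := h1 χ b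
      linarith
    exact_mod_cast h3
  -- the dimensions in the main examples
  have hm1 : D.Good p → D.bound p 1 = 1 := by
    intro hg
    have h4 := D.mult_eq hp hg.base hg.curve hg.inter 1
    rw [ram_one D, Finset.card_empty] at h4
    unfold Branch.bound
    rw [if_pos rfl]
    push_cast at h4
    linarith
  have hsg : ∀ (b : ℕ) (χ : G →* E), 0 ≤ H.sign p b χ := by
    intro b χ
    unfold H2.sign signTerm
    split_ifs <;> norm_num
  have hm : D.Good p → ∀ b : ℕ, (∀ χ : G →* E, χ ≠ 1 → (D.ram χ).card = 2 ∨ (D.ram χ).card = 3 ∨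
        ((D.ram χ).card = 1 ∨ (D.ram χ).card = 4) ∧ H.sign p b χ = 1) →
      ∀ χ : G →* E, χ ≠ 1 → D.bound p χ - H.sign p b χ = 0 := by
    intro hg b hram χ hχ
    have h4 := D.mult_eq hp hg.base hg.curve hg.inter χ
    have hnn := h1 χ b
    have hb : D.bound p χ = D.mult p χ := by
      unfold Branch.bound
      rw [if_neg hχ, sub_zero]
    rw [hb] at hnn ⊢
    have hnn' : 0 ≤ D.mult p χ - H.sign p b χ := by
      have : (0 : ℤ) ≤ (H.tateDim (p ^ b) χ : ℤ) := Int.natCast_nonneg _
      linarith
    have hsg' := hsg b χ
    rcases hram χ hχ with h5 | h5 | ⟨h5, h6⟩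
    · rw [h5] at h4
      push_cast at h4
      linarith
    · rw [h5] at h4
      push_cast at h4
      linarith
    · rw [h6]
      rcases h5 with h5 | h5
      · rw [h5] at h4
        push_cast at h4
        linarith
      · rw [h5] at h4
        push_cast at h4
        linarith
  refine ⟨h1, h2, ?_, ?_⟩
  · intro hg b hram N v hvN hvT
    obtain ⟨hv0, hv⟩ := hvT
    have hle1 : H.tateDim (p ^ b) 1 ≤ 1 := by
      have h4 := h1 1 b
      have hsg' := hsg b 1
      rw [hm1 hg] at h4
      have h5 : (H.tateDim (p ^ b) 1 : ℤ) ≤ 1 := by linarith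
      exact_mod_cast h5
    have hle : ∀ χ : G →* E, χ ≠ 1 → H.tateDim (p ^ b) χ = 0 := by
      intro χ hχ
      have h4 := h1 χ b
      have h5 := hm hg b hram χ hχ
      have h6 : (H.tateDim (p ^ b) χ : ℤ) ≤ 0 := by linarith
      have h7 : H.tateDim (p ^ b) χ ≤ 0 := by exact_mod_cast h6
      omega
    have htot : finrank E (H.tateSpace (p ^ b)) ≤ 1 := by
      refine (htd (p ^ b)).trans ?_
      rw [← Finset.add_sum_erase univ (fun χ => H.tateDim (p ^ b) χ) (mem_univ (1 : G →* E)),
        Finset.sum_eq_zero fun χ hχ => hle χ (Finset.ne_of_mem_erase hχ), add_zero]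
      exact hle1
    have hvT : v ∈ H.tateSpace (p ^ b) := by
      refine mem_tateSpace (hN b) hq0 ?_
      have h4 : ∀ m : ℕ, (H.Φ ^ m) v = (q : E) ^ m • v := by
        intro m
        induction m with
        | zero => simp
        | succ m ih => rw [pow_succ', Module.End.mul_apply, ih, map_smul, hv, smul_smul, pow_succ]
      exact h4 _
    have hge : 1 ≤ finrank E (N ⊓ H.tateSpace (p ^ b) : Submodule E H.V) := by
      have : Nontrivial (N ⊓ H.tateSpace (p ^ b) : Submodule E H.V) :=
        ⟨⟨⟨v, hvN, hvT⟩, 0, fun h4 => hv0 (congrArg Subtype.val h4)⟩⟩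
      exact finrank_pos
    refine ⟨tate_of_dim (hN b) hq0 htot hge, le_antisymm htot ?_⟩
    exact hge.trans (Submodule.finrank_mono inf_le_right)
  · intro P hP
    have h4 := rm_total hp hG hq D h P hP.1 hP.2
    refine ⟨h4, ?_⟩
    intro hg hram v hvT
    obtain ⟨hv0, hv⟩ := hvT
    have hm' := hm hg 1 (fun χ hχ => by
      rcases hram χ hχ with h5 | h5
      · exact Or.inl h5
      · exact Or.inr (Or.inl h5))
    have hsign : ∀ χ : G →* E, H.sign p 1 χ = 0 := by
      intro χ
      unfold H2.sign signTerm
      rw [if_neg]
      rintro ⟨⟨-, h5⟩, -⟩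
      exact one_ne_zero h5
    have h5 : ∑ χ : G →* E, D.mult p χ = 3 := by
      rw [← Finset.add_sum_erase univ (fun χ => D.mult p χ) (mem_univ (1 : G →* E)),
        Finset.sum_eq_zero fun χ hχ => ?_, add_zero]
      · have h6 := hm1 hg
        unfold Branch.bound at h6
        rw [if_pos rfl] at h6
        linarith
      · have h6 := hm' χ (Finset.ne_of_mem_erase hχ)
        rw [hsign χ, sub_zero] at h6
        unfold Branch.bound at h6
        rwa [if_neg (Finset.ne_of_mem_erase hχ), sub_zero] at h6
    rw [h5] at h4
    have h6 := rm_pos hp hq hv0 hv P hP.1 hP.2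
    have h7 : rootMod p P ≤ 1 := by
      have h8 : (rootMod p P : ℤ) ≤ 1 := by linarith
      exact_mod_cast h8
    omega

end Pool.Agent.Results.MP_89bcae_ag.AbelianPGroupActions
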