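import Pool.Agent.J6H31.GT.Expl

/-!
# The Tate conjecture over all finite extensions of finitely generated fields, for varieties with
# automorphisms: tests at several places and several primes `p`

Let `𝒳` be a smooth projective surface (more generally a smooth projective variety of dimension `2 m`; we
consider cycles of codimension `m`, divisors for `m = 1`) over a finitely generated field `k` with the
absolute Galois group `Γ`, and `G` a finite group of automorphisms of `𝒳` over `k`. Let
`V = H^{2m}(𝒳̄, ℚ̄_ℓ(m))`; for a subgroup `U` of `Γ` of finite index let `k_U` be the corresponding
extension of `k`. The Tate classes over `k_U` are the elements of `V` fixed by `U`.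

A test consists of a place `v` of good reduction, with a Frobenius element `F ∈ Γ` and a residue field
with `q` elements, a prime `p` which does not divide `q`, a finite abelian `p`-group `A` acting on `𝒳`
through a homomorphism `A → G` (`p`, `A` and `v` depend on the test), and a character `χ ≠ 1` of `A`.
Let `X` be the reduction of `𝒳` at `v`. We assume that `A` acts trivially on the cohomology of `X` in
the degrees different from `2 m` (for surfaces: that `H^1(X / A) = H^1(X)`). Let `Z_1, …, Z_r` be closed
subvarieties of `Y = X / A` with inertia groups `I_1, …, I_r ⊆ A`: the stabilizer in `A` of a point `x` of
`X` is generated by the `I_j` with `π(x) ∈ Z_j`. Let `V_χ` be the part of `V` on which `A` acts by `χ`.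
The characteristic polynomial of Frobenius on `V_χ` is congruent, modulo all places above `p`, to a
polynomial `red` over the field with `p` elements which is a quotient of the numerators and
denominators of the zeta functions of the intersections of the `Z_j` at which `χ` is ramified. Let `b_n`
be the total degree of the factors `Φ_N(q ^ m T)` of `red`, with multiplicities, for the divisors `N` of `n`
which are prime to `p`; here `Φ_N` is the cyclotomic polynomial modulo `p`. Let `sgn = 1` if `n = 1`,
`p = 2`, `χ² = 1` and the determinant of `F` on `V_χ` is `-1`, and `sgn = 0` otherwise.

Theorem. (1) If `F ^ n ∈ U` then the dimension of the space of the Tate classes over `k_U` in `V_χ` is at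
most `b_n - sgn`. In particular over ALL finite extensions it is at most the total degree of the
factors `Φ_N(q ^ m T)` of `red`, `N` prime to `p`.

(2) Let `N` be a `G`-stable span of classes of some known cycles (`N = 0` is allowed). Suppose that every
nonzero `G`-stable subspace of `V` without nonzero `G`-invariant elements meets the part `V_χ` of a test
such that `F ^ n ∈ U` and `b_n ≤ dim N_χ + sgn` for some `n`, and that the cycles in `N` are defined over
`k_U`. Then the Tate conjecture for `𝒳` over `k_U` (in codimension `m`) follows from the one for `𝒳 / G`
(that is, if all invariant Tate classes are algebraic). If there are such tests with `b_n ≤ dim N_χ` for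
all `n`, then this holds for all finite extensions of `k` over which the cycles in `N` are defined.

(3) If `G` is commutative the condition on the subspaces holds if every character `≠ 1` of `G` restricts
to the character `χ` of one of these tests: so one can use different places, and different primes `p`,
for the different parts of the cohomology.

(4) Let `m = 1`, `q ≡ 1 modulo p`, and let `χ` be ramified exactly at two disjoint strata `Z_i`, `Z_j`, `Z_j` a
smooth curve with the polynomial `P` of Frobenius on `H^1(Z_j)`, where either `Y` is the cone over the
rational normal curve of degree `d`, `p ∣ d`, and `Z_i` its vertex (`b = 0`), or `Y` is a rational ruled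
surface and `Z_i` its negative section (`b = 1`), or more generally the zeta functions of `Y` and `Z_i` are
as in `TwoDisjoint`. Then `red` is `P` modulo `p`. So if no cyclotomic polynomial `Φ_N`, `N` prime to `p`,
divides `P` modulo `p`, then `b_n = 0` for all `n`, and the test can be used for all finite extensions.

Examples of (4). The surfaces with `K² = 1`, `p_g = 2` (Horikawa), which are the double coverings of the
quadric cone branched at the vertex and a smooth curve `Z` of genus `16`, and more generally the surfaces
of degree `2 a` in `P(1, 1, 2, a)`, `a` odd, and of degree `a p` in `P(1, 1, p, a)`. Elliptic surfaces over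
`ℙ^1` with a section and irreducible fibres, where `p = 2`, `A` has order two, `Z_i` is the zero section
and `Z_j` the curve of the points of order two. If at one place `v` the polynomial of `Z` modulo `p` is
not divisible by a cyclotomic polynomial of an order prime to `p`, then the Tate conjecture for divisors
holds for `𝒳` over all finite extensions of `k`, and the Picard number of `𝒳̄` is one (two for the
elliptic surfaces). By Chebotarev's density theorem there is such a place (for `k` a number field) if
the Galois group of the field generated by the points of order `p` of the Jacobian of the branch curve
of `𝒳` contains an element with such a characteristic polynomial; for the surfaces with `K² = 1`,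
`p_g = 2` it is enough that its order is divisible by the prime number `65537`, for instance that it is
the symplectic group.

Proof. Modulo a place above `p` a root of unity of order `N p ^ a` is congruent to a root of unity of
order `N`. Because the congruence between the polynomial on `V_χ` and `red` holds for all places above
`p`, with the same `red`, it can be composed with the automorphisms of the field of algebraic numbers; so
every eigenvalue which is a root of unity gives not only one root of `red` but on average as many as the
cyclotomic polynomial `Φ_N` has. The sign: if the determinant is `-1` then `-1` is an eigenvalue.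
-/

set_option autoImplicit false
set_option linter.unusedVariables false

namespace Pool.Agent.Results.MP_89bcae_ag.AllFiniteExtensions

open Finset Polynomial Module Pool.Agent.J6H31.GA Pool.Agent.J6H31.GT

/-- Tate classes over the finite extensions of a finitely generated field and finite groups of
automorphisms. -/
theorem result {Γ G : Type} [Group Γ] [Group G] [Fintype G] {E : Type} [Field E] [CharZero E]
    [IsAlgClosed E] (H : Coh Γ G E) (m : ℕ) :
    -- (1) the number of Tate classes
    (∀ (t : Test H m) (U : Subgroup Γ) (n : ℕ), 0 < n → t.F ^ n ∈ U →
      finrank E (H.fixed U ⊓ t.part : Submodule E H.V) + t.sgn n ≤ t.bound n) ∧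
    -- (2) the Tate conjecture over one extension and over all finite extensions
    (∀ N : Submodule E H.V, H.Stable N →
      (∀ U : Subgroup Γ, N ≤ H.fixed U → H.Covered m (fun t => t.Passes U N) →
        H.Descends U N) ∧
      (∀ U₀ : Subgroup Γ, U₀.index ≠ 0 → N ≤ H.fixed U₀ →
        H.Covered m (fun t => t.PassesAlways N) →
          ∀ U : Subgroup Γ, U ≤ U₀ → U.index ≠ 0 → H.Descends U N)) ∧
    -- (3) commutative groups
    ((∀ a b : G, a * b = b * a) → ∀ P : Test H m → Prop,
      H.CoveredByCharacters m P → H.Covered m P) ∧
    -- (4) two disjoint branch strata
    (∀ (t : Test H 1) (b : ℕ) (P : ℤ[X]) (i j : Fin t.r), i ≠ j → t.q ≡ 1 [MOD t.p] →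
      TwoDisjoint t.D t.q b i j P → t.D.ram t.χ = {i, j} →
        t.red = P.map (Int.castRingHom (ZMod t.p)) ∧
          (NoCyclotomic t.p P → ∀ N : Submodule E H.V, t.PassesAlways N)) := by
  refine ⟨fun t U n hn hU => fixed_bound t hn hU, fun N hN => ⟨fun U hNU h => ?_, ?_⟩,
    fun hG P h => covered_of_characters hG h,
    fun t b P i j hij hq h hχ => passes_twoDisjoint t hq hij h hχ⟩
  · exact descends_of_le hNU (fixed_le hNU hN h)
  · intro U₀ hU₀ hNU h U hU hUi
    exact descends_of_le (hNU.trans (fixed_mono hU)) (fixed_le_always hN hU₀ hNU h hUi)

end Pool.Agent.Results.MP_89bcae_ag.AllFiniteExtensions
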