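import Pool.Agent.J6H2.TA.Final

/-!
# A discriminant criterion for the Tate conjecture for divisors

Let `X` be a smooth projective surface over a finitely generated field `k`, `ℓ` a prime different from
the characteristic, and `T` the transcendental part of `H²(X̄, ℚ_ℓ(1))`, the orthogonal complement of the
classes of the divisors on `X̄`. For a closed point `v` of a model let `C_v Q_v` be the characteristic
polynomial of Frobenius on `T`, where `C_v` contains the roots which are roots of unity, and let
`D_v = Q_v(1) Q_v(-1)`. If `C_v = 1` for some `v` then the Tate conjecture holds for `X` over all finite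
extensions of `k`, for trivial reasons. This can never happen if the dimension of `T` is odd and the
Galois group acts on `T` with determinant one: then `1` is an eigenvalue of all Frobenius elements.

Theorem. (1) Assume that `C_v` and `C_w` have the same degree `m`, and that `D_v D_w` is not a square in
the field of `ℓ`-adic numbers. Then over all finite extensions `k'` of `k` the dimension of the space of
invariants of `V_ℓ Br(X̄)` is less than `m`. In particular, if `m = 1`, the Tate conjecture
holds for the divisors on `X` over all finite extensions `k'` of `k`, for the prime `ℓ`.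

(2) If `D_v D_(w_1), …, D_v D_(w_n)` are independent in `ℚ^× / (ℚ^×)²`, then this holds for all `ℓ` in
a set of primes of density at least `1 - 2^(-n)`; for `n = 1` the assumption is that `D_v D_w` is not
the square of a rational number, and the density is at least `1 / 2`.

(3) If the `D_v D_w` generate an infinite subgroup of `ℚ^× / (ℚ^×)²`, it holds for a set of primes `ℓ`
of density one.

Proof. Let `I` be the space of the invariants in `T` of an open subgroup. A power of `Frob_v` fixes
`I`, so `I` is contained in the sum `R_v` of the generalised eigenspaces for roots of unity, which has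
dimension `m`. If `dim I = m` then `I = R_v = R_w`, so `Frob_v` and `Frob_w` act on the same quadratic
space `U`, the orthogonal complement of `I`, with characteristic polynomials `Q_v` and `Q_w`. The
discriminant of a quadratic space with an isometry `F` without eigenvalues `1` and `-1` is
`det(F - 1) det(F + 1)` up to squares, because the form `(F x, y) - (x, F y)` is alternating. So `D_v`
and `D_w` differ by a square. The densities follow from Chebotarev's theorem (starting library).

This is related to van Luijk's method, which bounds the Picard number of `X` by comparing the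
discriminants of the Néron-Severi lattices of two reductions; here Galois invariant classes are
bounded instead of algebraic ones, and nothing is assumed about the reductions.
-/

set_option autoImplicit false

namespace Pool.Agent.Results.MP_89bcae_ag.DiscriminantCriterion

open Pool.Agent.J6H2.TA Pool.Agent.J6H2.CL

/-- The discriminant criterion for the Tate conjecture. Here `𝓥` is a set of places of good reduction
such that exactly `m` eigenvalues of Frobenius on the transcendental part are roots of unity. -/
theorem result {G : Type} [Group G] (D : ∀ (l : ℕ) [Fact l.Prime], SurfaceData G ℚ_[l]) (m : ℕ)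
    (𝓥 : Set (Place G)) (hm : ∀ v ∈ 𝓥, v.C.natDegree = m) :
    -- one prime `ℓ` and two places
    (∀ (l : ℕ) [Fact l.Prime], ∀ v ∈ 𝓥, ∀ w ∈ 𝓥, (D l).HasPlace v → (D l).HasPlace w →
      ¬ IsSquare ((v.disc * w.disc : ℚ) : ℚ_[l]) → (D l).DefectBelow m) ∧
    -- all primes `ℓ`
    ((∀ v ∈ 𝓥, ∃ B : ℕ, ∀ (l : ℕ) [Fact l.Prime], B < l → (D l).HasPlace v) →
      (∀ (n : ℕ), ∀ v ∈ 𝓥, ∀ w : Fin n → Place G, (∀ j, w j ∈ 𝓥) →
        IndependentModSquares (fun j => v.disc * (w j).disc) →
        ∃ (S : Set ℕ) (δ : ℝ), 1 - (1 / 2) ^ n ≤ δ ∧ HasPrimeDensity S δ ∧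
          ∀ (l : ℕ) [Fact l.Prime], l ∈ S → (D l).DefectBelow m) ∧
      ((∀ n : ℕ, ∃ v ∈ 𝓥, ∃ w : Fin n → Place G, (∀ j, w j ∈ 𝓥) ∧
        IndependentModSquares (fun j => v.disc * (w j).disc)) →
        HasPrimeDensity {l | ∃ h : l.Prime, (haveI : Fact l.Prime := ⟨h⟩; (D l).DefectBelow m)}
          1)) := by
  refine ⟨fun l hl v hv w hw hvD hwD h => (D l).defectBelow hvD hwD (hm v hv) (hm w hw) h,
    fun hD => ?_⟩
  have key : ∀ (n : ℕ), ∀ v ∈ 𝓥, ∀ w : Fin n → Place G, (∀ j, w j ∈ 𝓥) →
        IndependentModSquares (fun j => v.disc * (w j).disc) →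
        ∃ (S : Set ℕ) (δ : ℝ), 1 - (1 / 2) ^ n ≤ δ ∧ HasPrimeDensity S δ ∧
          ∀ (l : ℕ) [Fact l.Prime], l ∈ S → (D l).DefectBelow m := fun n v hv w hw hind =>
    density_below D (hm v hv) (fun j => hm _ (hw j)) (hD v hv) (fun j => hD _ (hw j)) hind
  refine ⟨key, fun h => density_one (fun l hl => hl.1) fun n => ?_⟩
  obtain ⟨v, hv, w, hw, hind⟩ := h n
  obtain ⟨S, δ, hδ, hS, hmain⟩ := key n v hv w hw hind
  refine ⟨S, δ, hδ, hS, fun l hl => ⟨hS.prime l hl, ?_⟩⟩
  haveI : Fact l.Prime := ⟨hS.prime l hl⟩
  exact hmain l hl

end Pool.Agent.Results.MP_89bcae_ag.DiscriminantCriterion
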