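import Mathlib
import Pool.Agent.J6H65.SG.Grp
import Pool.Agent.J6H65.ST.Stm
import Pool.Agent.J6H65.ST.Trs

/-!
# The Tate conjecture at `ℓ` for 100% of the superelliptic surfaces over all infinite finitely generated
# fields, all their extensions with solvable constants and all the twists by constants

Let `R` be an integrally closed domain which is finitely generated as a ring and not a field, with
field of fractions `k`, and let `ℓ` be a prime number with `ℓ ≠ 0` in `R` such that `R` contains a
primitive `ℓ`-th root of unity. (Each infinite finitely generated field of characteristic different from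
`ℓ` with the `ℓ`-th roots of unity is the field of fractions of such an `R`; all characteristics and all
transcendence degrees are allowed.) We consider tuples `g = (g 0, ..., g N)` of polynomials in `t` of
degree at most `n` over `R`, `N` prime to `ℓ`, `n ≥ 5`, and the surfaces fibred over the `t`-line with
the generic fibres

`C_δ : y ^ ℓ = δ g 0 (t) (x - g 1 (t)) ⋯ (x - g N (t))`, `δ ≠ 0` a constant,

curves of genus `(ℓ - 1) (N - 1) / 2` over `L(t)`, `L` an extension field of `k`. Let `J` be the Jacobian
of `C_δ`, `L'` a separable closure of `L`, `K = L(t)` and `F = L'(t)`.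

Call `g` good if the polynomials `g 0` and `g i - g j`, `1 ≤ i < j ≤ N`, are irreducible over `k` of degree
`n` and separable, and for EVERY extension field `L` of `k` (for example `L = k`) the following is true.

(A) If the elements of `L` which are separable algebraic over `k` lie in a normal extension `M` of `k` in
`L'` such that none of the polynomials `g 0`, `g i - g j` splits into linear factors over `M`, then for
EVERY constant `δ ≠ 0` of `L`

(i) the Tate conjecture for divisors at the prime `ℓ` holds for the surface (`TateAt`): the classes in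
`V_ℓ Sel(J / F)` which are fixed by the Galois group of `L` come from `J(K)`;

(ii) in fact all these classes are zero, even those without a local condition at `t = ∞`, that is, for the
surface without its fibre over `t = ∞` (`NoClasses`);

(iii) over `K = L(t)` every class of `ℓ`-power order in `H ^ 1 (K, J)` which is trivial over the
completions of `K` at all the closed points of the affine line is zero (`ShaTrivial`);

(iv) every point of `J(K)` is the sum of a point killed by `ℓ` and of `ℓ` times a point; if `J(K)` is
finitely generated (the theorem of Lang and Néron, for finitely generated `L`), then it is finite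
(`PointsTorsion`).

(B) The same is true if for each element of `L` which is separable algebraic over `k` the Galois group of
its minimal polynomial over `k` is solvable.

Theorem. (1) (Congruences.) For every `η > 0` there is an ideal `I` of `R` with finite quotient and a set
of residue classes modulo `I` of tuples, with proportion at least `1 - η` among all the residue classes,
such that EVERY tuple over `R` in one of these residue classes is good.

(2) (100%.) Let `B 0`, `B 1`, ... be a sequence of nonempty finite sets of such tuples over `R` which is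
equidistributed modulo each ideal of `R` with finite quotient. Then the proportion of the good tuples in
`B i` tends to `1`.

The proof. Let `ζ` be the automorphism of order `ℓ` of the curve. A class in `V_ℓ` fixed by the Galois group
gives a class with values in `J[(1 - ζ) ^ 2]` over `F`, whose first layer is to be shown to be trivial. At
a zero `θ` of `g 0` in `L'` the curve has bad reduction which is a twist by a ramified extension of degree
`ℓ` (`Pool.Agent.J6H65.ST.Twp`), so the class becomes trivial there after subtraction of the class of a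
point of order `1 - ζ`; the commutators with lifts of the automorphisms of `L'` which fix `θ`, which exist
over the completion at `θ` (`Pool.Agent.J6H65.ST.Lft`), show that the first layer is the restriction of a
homomorphism of the Galois group of `K` which is trivial on these lifts (`Pool.Agent.J6H65.ST.Fth`). So
its Kummer generators are products of powers of the differences `g i - g j` and of constants which are
`ℓ`-th powers in the residue field `L(θ)`. These are `ℓ`-th powers in `L`: Frobenius elements at maximal
ideals of `R` show that the Galois groups over `k` of `g 0` and of the differences are the full symmetric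
groups, and that for each product `f` of powers of the differences, not all exponents divisible by `ℓ`, the
quotient `f(x) / f(y)` of the values at two zeros `x`, `y` of `g 0` is not an `ℓ`-th power in the splitting
field of `g 0`; over `L` the Galois group still contains the alternating group, which is perfect, and a
commutator argument in the Galois group over `M` of an extension by an `ℓ`-th root of `f(x) / f(y)` shows
that this quotient does not become an `ℓ`-th power in `L(x, y)`. Last, a sieve over the maximal ideals of
`R`.
-/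

set_option autoImplicit false
set_option linter.all false

namespace Pool.Agent.Results.MP_89bcae_ag.SuperellipticAllFields

open Polynomial Filter Topology
open Pool.Agent.TH115.GD (IsTower)
open Pool.Agent.Y713.Tate (TateAt)
open Pool.Agent.J6H65.ST (NoClasses ShaTrivial PointsTorsion)
open scoped Classical

/-- The tuples of `N + 1` polynomials of degree at most `n` over `R`, given by their coefficients. -/
abbrev Tuples (N n : ℕ) (R : Type) : Type := Fin (N + 1) × Fin (n + 1) → R

/-- The polynomials of a tuple, over `k`. -/
noncomputable def poly {R : Type} [CommRing R] (k : Type) [Field k] [Algebra R k] {N n : ℕ}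
    (c : Tuples N n R) (i : Fin (N + 1)) : k[X] :=
  ∑ j : Fin (n + 1), C (algebraMap R k (c (i, j))) * X ^ (j : ℕ)

/-- The polynomial `δ g 0 (t) (x - g 1 (t)) ... (x - g N (t))` in `x` over `K = L(t)`, for polynomials
over the subfield `k` of `L` and a constant `δ` of `L`. -/
noncomputable def curve {k : Type} [Field k] {L : Type} (K : Type) [Field L] [Algebra k L] [Field K]
    [Algebra L[X] K] {N : ℕ} (g : Fin (N + 1) → k[X]) (δ : L) : K[X] :=
  C (algebraMap L[X] K (C δ * (g 0).map (algebraMap k L))) *
    ∏ i : Fin N, (X - C (algebraMap L[X] K ((g i.succ).map (algebraMap k L))))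

/-- The conclusions for the curve `y ^ ℓ = f(x)` over `K = L(t)`, with `F = L'(t)`. -/
def Holds (ℓ : ℕ) (L L' : Type) {K : Type} (F : Type) [Field L] [Field L'] [Field K]
    [Algebra L[X] K] [IsFractionRing L[X] K] [Field F] [Algebra L'[X] F] [IsFractionRing L'[X] F]
    [Algebra K F] (f : K[X]) : Prop :=
  TateAt (F := F) ℓ L' f ∧ NoClasses (F := F) ℓ L' f ∧ ShaTrivial ℓ L f ∧ PointsTorsion ℓ f

/-- Condition (A) or (B) on the elements of `L` which are separable algebraic over `k`. -/
def SmallConstants {k : Type} [Field k] {N : ℕ} (g : Fin (N + 1) → k[X]) (L L' : Type) [Field L]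
    [Field L'] [Algebra L L'] [Algebra k L] [Algebra k L'] : Prop :=
  (∃ M : IntermediateField k L', Normal k M ∧
    (∀ x : L, IsSeparable k x → algebraMap L L' x ∈ M) ∧
    ¬ ((g 0).map (algebraMap k M)).Splits ∧
    ∀ i j : Fin N, i < j → ¬ ((g i.succ - g j.succ).map (algebraMap k M)).Splits) ∨
  ∀ x : L, IsSeparable k x → Group.IsSolvable (minpoly k x).Gal

/-- The conclusions over all the extensions `L` of `k` which satisfy (A) or (B), for all the twists by
constants of `L`; `L'` is a separable closure of `L`, `K = L(t)` and `F = L'(t)`. -/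
def HoldsOverAll (k : Type) [Field k] (ℓ : ℕ) {N : ℕ} (g : Fin (N + 1) → k[X]) : Prop :=
  ∀ (L L' K F : Type) [Field L] [Field L'] [Algebra L L'] [Field K] [Algebra L[X] K]
    [IsFractionRing L[X] K] [Field F] [Algebra L'[X] F] [IsFractionRing L'[X] F] [Algebra K F]
    [Algebra k L] [Algebra k L'] [IsScalarTower k L L'], IsTower L L' K F →
      SmallConstants g L L' → ∀ δ : L, δ ≠ 0 → Holds ℓ L L' F (curve K g δ)

/-- The good tuples. -/
structure Good (k : Type) [Field k] (ℓ n : ℕ) {N : ℕ} (g : Fin (N + 1) → k[X]) : Prop where
  irr : Irreducible (g 0) ∧ (g 0).natDegree = n ∧ (g 0).Separable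
  irrD : ∀ i j : Fin N, i < j → Irreducible (g i.succ - g j.succ) ∧
    (g i.succ - g j.succ).natDegree = n ∧ (g i.succ - g j.succ).Separable
  holds : HoldsOverAll k ℓ g

/-- The tuple `y` over `R` is in the residue class `z`. -/
def InClass {R : Type} [CommRing R] {N n : ℕ} {M : Ideal R} (y : Tuples N n R)
    (z : Tuples N n (R ⧸ M)) : Prop :=
  ∀ j, Ideal.Quotient.mk M (y j) = z j

/-- A sequence of finite sets of tuples which is equidistributed modulo each ideal with finite
quotient. -/
def Equidistributed {R : Type} [CommRing R] {N n : ℕ} (B : ℕ → Finset (Tuples N n R)) : Prop :=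
  ∀ M : Ideal R, Finite (R ⧸ M) → ∀ z : Tuples N n (R ⧸ M),
    Tendsto (fun i => (((B i).filter (fun y => InClass y z)).card : ℝ) / ((B i).card : ℝ)) atTop
      (𝓝 (1 / (Nat.card (Tuples N n (R ⧸ M)) : ℝ)))

theorem good_of {R k : Type} [CommRing R] [IsDomain R] [IsIntegrallyClosed R] [IsNoetherianRing R]
    [Field k] [Algebra R k] [IsFractionRing R k] {ℓ : ℕ} (hℓ : ℓ.Prime) (h0 : (ℓ : R) ≠ 0) {ζ : R}
    (hζ : IsPrimitiveRoot ζ ℓ) {N n B : ℕ} (hN : ¬ ℓ ∣ N) (hn : 5 ≤ n) {c : Tuples N n R}
    (h : ∀ s : J6H65.SG.Sx ℓ N, ∃ p ∈ J6H65.SG.Zb R (ℓ : R) B,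
      (fun j => Ideal.Quotient.mk p (c j)) ∈ J6H65.SG.GE ℓ N n (R ⧸ p) s) :
    Good k ℓ n (poly k c) := by
  have hk : (ℓ : k) ≠ 0 := by
    rw [← map_natCast (algebraMap R k)]
    exact (map_ne_zero_iff _ (IsFractionRing.injective R k)).2 h0
  have hζk : IsPrimitiveRoot (algebraMap R k ζ) ℓ :=
    hζ.map_of_injective (IsFractionRing.injective R k)
  have H0 := J6H65.SG.hyp_of (k := k) hℓ hn h
  have e : (fun i => (J6H65.SG.gp c i).map (algebraMap R k)) = poly k c := by
    funext i
    exact Pool.Agent.X243.Tate.bF_map (algebraMap R k) _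
  rw [e] at H0
  have hext : ∀ (L L' K F : Type) [Field L] [Field L'] [Algebra L L'] [Field K] [Algebra L[X] K]
    [IsFractionRing L[X] K] [Field F] [Algebra L'[X] F] [IsFractionRing L'[X] F] [Algebra K F]
    [Algebra k L] [Algebra k L'] [IsScalarTower k L L'], IsTower L L' K F →
      ∀ M : IntermediateField k L', Normal k M →
        (∀ x : L, IsSeparable k x → algebraMap L L' x ∈ M) →
        ¬ ((poly k c 0).map (algebraMap k M)).Splits →
        (∀ i j : Fin N, i < j →
          ¬ ((poly k c i.succ - poly k c j.succ).map (algebraMap k M)).Splits) →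
        ∀ δ : L, δ ≠ 0 → Holds ℓ L L' F (curve K (poly k c) δ) := by
    intro L L' K F _ _ _ _ _ _ _ _ _ _ _ _ _ hT M hMn hM h1 h2 δ hδ
    haveI := hT.sep
    have hkL : (ℓ : L) ≠ 0 := by
      rw [← map_natCast (algebraMap k L)]
      exact (_root_.map_ne_zero _).2 hk
    have hζL : IsPrimitiveRoot (algebraMap k L (algebraMap R k ζ)) ℓ :=
      hζk.map_of_injective (algebraMap k L).injective
    have hd := J6H65.SG.data_L (L := L) (L' := L') hℓ hn H0 hk hζk M hM h1 h2
    obtain ⟨a1, a2⟩ := J6H65.ST.sha_D hℓ hN hd hkL hζL hδ K
    have a3 : NoClasses (F := F) ℓ L' (curve K (poly k c) δ) :=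
      J6H65.ST.tate_D hℓ hN hd hkL hζL hδ hT
    exact ⟨a3.tateAt, a3, a1, a2⟩
  refine ⟨⟨H0.f0.1.1, H0.f0.1.2, H0.f0.2.1⟩, fun i j hij => ?_, ?_⟩
  · have h3 := H0.fd i j hij
    exact ⟨h3.1.1, h3.1.2, h3.2.1⟩
  · intro L L' K F _ _ _ _ _ _ _ _ _ _ _ _ _ hT hS
    rcases hS with ⟨M, h1, h2, h3, h4⟩ | hM
    · exact hext L L' K F hT M h1 h2 h3 h4
    haveI := hT.sep
    have hcl : IsSepClosed L' := IsSepClosure.sep_closed L
    have h1 := H0.f0
    refine hext L L' K F hT (Pool.Agent.X243.Gen.solvM k L')
      (Pool.Agent.X243.Gen.solvM_normal L')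
      (fun x hx => Pool.Agent.X243.Gen.mem_solvM hx (hM x hx))
      (Pool.Agent.X243.Gen.solvM_not_splits L' h1.2.1 (by rw [h1.1.2]; exact hn) h1.2.2)
      (fun i j hij => ?_)
    have h3 := H0.fd i j hij
    exact Pool.Agent.X243.Gen.solvM_not_splits L' h3.2.1 (by rw [h3.1.2]; exact hn) h3.2.2

theorem result :
    ∀ (R k : Type) [CommRing R] [IsDomain R] [IsIntegrallyClosed R] [Algebra.FiniteType ℤ R]
      [Field k] [Algebra R k] [IsFractionRing R k], ¬ IsField R →
      ∀ ℓ : ℕ, ℓ.Prime → (ℓ : R) ≠ 0 → ∀ ζ : R, IsPrimitiveRoot ζ ℓ →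
      ∀ N n : ℕ, ¬ ℓ ∣ N → 5 ≤ n →
        (∀ η : ℝ, 0 < η → ∃ M : Ideal R, Finite (R ⧸ M) ∧
          (1 - η) * (Nat.card (Tuples N n (R ⧸ M)) : ℝ) ≤
          (({z : Tuples N n (R ⧸ M) | ∀ y : Tuples N n R, InClass y z →
                Good k ℓ n (poly k y)}.ncard : ℕ) : ℝ)) ∧
        (∀ B : ℕ → Finset (Tuples N n R), (∀ i, (B i).Nonempty) → Equidistributed B →
          Tendsto (fun i => (((B i).filter (fun y => Good k ℓ n (poly k y))).card : ℝ) /
            ((B i).card : ℝ)) atTop (𝓝 1)) := by
  intro R k _ _ _ _ _ _ _ hR ℓ hℓ h0 ζ hζ N n hN hn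
  have : IsNoetherianRing R := Algebra.FiniteType.isNoetherianRing ℤ R
  have hcard : ∀ M : Ideal R, (Nat.card (Tuples N n (R ⧸ M)) : ℝ) =
      (Nat.card (R ⧸ M) : ℝ) ^ (Fintype.card (Fin (N + 1) × Fin (n + 1))) := by
    intro M
    rw [Nat.card_fun, Nat.card_eq_fintype_card (α := Fin (N + 1) × Fin (n + 1))]
    push_cast
    rfl
  have key : ∀ η : ℝ, 0 < η → ∃ M : Ideal R, Finite (R ⧸ M) ∧
      (1 - η) * (Nat.card (R ⧸ M) : ℝ) ^ (Fintype.card (Fin (N + 1) × Fin (n + 1))) ≤
        (({x : Fin (N + 1) × Fin (n + 1) → R ⧸ M | ∀ y : Fin (N + 1) × Fin (n + 1) → R,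
          (∀ j, Ideal.Quotient.mk M (y j) = x j) →
            y ∈ {y : Tuples N n R | Good k ℓ n (poly k y)}}).ncard : ℝ) := by
    intro η hη
    obtain ⟨M, hM, hd⟩ := J6H65.SG.densT R hR hℓ h0 hζ N (by omega : 3 ≤ n) η hη
    have := hM
    refine ⟨M, hM, hd.trans ?_⟩
    have h3 : ∀ S T : Set (Fin (N + 1) × Fin (n + 1) → R ⧸ M), S ⊆ T →
        ((S.ncard : ℕ) : ℝ) ≤ ((T.ncard : ℕ) : ℝ) := fun S T h => by
      exact_mod_cast Set.ncard_le_ncard h (Set.toFinite _)
    apply h3
    intro x hx y hy
    refine good_of hℓ h0 hζ hN hn (B := J6H65.SG.BB N n) (fun s => ?_)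
    obtain ⟨p, hp, hp'⟩ := hx s
    exact ⟨p, hp, hp' y hy⟩
  constructor
  · intro η hη
    obtain ⟨M, hM, hd⟩ := key η hη
    refine ⟨M, hM, ?_⟩
    rw [hcard]
    exact hd
  · intro B hB heq
    exact Pool.Agent.X243.Gen.tendsto_of_dens {y : Tuples N n R | Good k ℓ n (poly k y)} key B hB
      (by
        intro M hM x
        have h1 := heq M hM x
        rw [hcard] at h1
        refine h1.congr fun i => ?_
        exact congrArg (fun m : ℕ => (m : ℝ) / ((B i).card : ℝ))
          (congrArg Finset.card (Finset.filter_congr fun _ _ => Iff.rfl)))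

end Pool.Agent.Results.MP_89bcae_ag.SuperellipticAllFields
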